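import Pool.Agent.helper79.SX.Spec

set_option autoImplicit false

open Finset ArithmeticFunction

namespace Pool.Agent.SX

theorem CH5_psi_div (x : ℝ) (k : ℕ) :
    Chebyshev.psi ((⌊x⌋₊ / k : ℕ) : ℝ) = Chebyshev.psi (x / k) := by
  rw [Chebyshev.psi_eq_psi_coe_floor (x / k), Nat.floor_div_natCast]

/-- upper bound from CH4 with the logarithm of `x` -/
theorem CH5_up (h4 : CH4_stmt) (x : ℝ) (k : ℝ) (hk : 1 ≤ k) (hx : k ≤ x) :
    Chebyshev.psi (x / k) ≤ 1.1056 * (x / k) + 0.7 * Real.log x ^ 2 + 3 * Real.log x + 50 := by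
  have hk0 : 0 < k := by linarith
  have h1 : 1 ≤ x / k := by rw [le_div_iff₀ hk0]; linarith
  have h2 := h4 (x / k) h1
  have h3 : 0 ≤ Real.log (x / k) := Real.log_nonneg h1
  have h5 : Real.log (x / k) ≤ Real.log x := by
    apply Real.log_le_log (by linarith)
    rw [div_le_iff₀ hk0]
    nlinarith
  have h6 : Real.log (x / k) ^ 2 ≤ Real.log x ^ 2 := pow_le_pow_left₀ h3 h5 2
  linarith

theorem CH5 (h1 : CH1_stmt) (h3 : CH3_stmt) (h4 : CH4_stmt) : CH5_stmt := by
  intro x hx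
  have hx0 : (0 : ℝ) < x := lt_of_lt_of_le (by norm_num) hx
  have hx' : (262144 : ℝ) ≤ x := by norm_num at hx; linarith
  set L := Real.log x with hL
  have hup6 := CH5_up h4 x 6 (by norm_num) (by linarith)
  have hup10 := CH5_up h4 x 10 (by norm_num) (by linarith)
  obtain ⟨-, -, hA⟩ := h1 ⌊x⌋₊
  have h31 := (h3 x (by linarith)).2
  have h32 := (h3 (x / 7) (by linarith)).1
  have h11 := (h1 ⌊x / 7⌋₊).1
  have e6 := CH5_psi_div x 6
  have e7 := CH5_psi_div x 7
  have e10 := CH5_psi_div x 10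
  push_cast at e6 e7 e10
  have e6' : Chebyshev.psi ((⌊x⌋₊ / 6 : ℕ) : ℝ) = Chebyshev.psi (x / 6) := by
    simpa using CH5_psi_div x 6
  have e7' : Chebyshev.psi ((⌊x⌋₊ / 7 : ℕ) : ℝ) = Chebyshev.psi (x / 7) := by
    simpa using CH5_psi_div x 7
  have e10' : Chebyshev.psi ((⌊x⌋₊ / 10 : ℕ) : ℝ) = Chebyshev.psi (x / 10) := by
    simpa using CH5_psi_div x 10
  rw [e6', e7', e10', ← Chebyshev.psi_eq_psi_coe_floor x] at hA
  rw [← Chebyshev.psi_eq_psi_coe_floor (x / 7)] at h11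
  have hlog7 : Real.log (x / 7) ≤ L := by
    apply Real.log_le_log (by linarith)
    linarith
  -- the logarithm
  have hlogx : L ≤ 10.477 + 2 * Real.sqrt (x / 2 ^ 18) := by
    have hs : 0 < Real.sqrt (x / 2 ^ 18) := Real.sqrt_pos.mpr (by positivity)
    have h7 : L = 18 * Real.log 2 + Real.log (x / 2 ^ 18) := by
      rw [Real.log_div hx0.ne' (by positivity), Real.log_pow]
      push_cast
      ring
    have h8 : Real.log (x / 2 ^ 18) = 2 * Real.log (Real.sqrt (x / 2 ^ 18)) := by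
      rw [Real.log_sqrt (by positivity)]
      ring
    have h9 := Real.log_le_sub_one_of_pos hs
    have h10 := Real.log_two_lt_d9
    rw [h7, h8]
    linarith
  set s := Real.sqrt (x / 2 ^ 18) with hs
  have hs1 : 1 ≤ s := by
    rw [hs]
    apply Real.one_le_sqrt.mpr
    rw [le_div_iff₀ (by positivity)]
    linarith
  have hss : s ^ 2 = x / 2 ^ 18 := Real.sq_sqrt (by positivity)
  have hxs : x = 262144 * s ^ 2 := by
    rw [hss]
    norm_num
    ring
  have hL0 : 0 ≤ L := Real.log_nonneg (by linarith)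
  have hL2 : L ^ 2 ≤ (10.477 + 2 * s) ^ 2 := pow_le_pow_left₀ hL0 hlogx 2
  have hfin : 1.4 * L ^ 2 + 11 * L + 100 ≤ 0.00247 * x := by
    rw [hxs]
    nlinarith
  have hpsi : Chebyshev.psi x ≤ FC ⌊x⌋₊ + Chebyshev.psi (x / 6) - Chebyshev.psi (x / 7)
      + Chebyshev.psi (x / 10) := by linarith
  linarith

end Pool.Agent.SX
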