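import Pool.Agent.helper79.SX.Spec

set_option autoImplicit false

open Finset ArithmeticFunction

namespace Pool.Agent.SX

theorem EXO : EXO_stmt := by
  intro n hn
  set N := (n + 1) ^ 10 with hN
  have hN128 : 2 ^ 70 < N := by
    have h1 : (2 ^ 7 : ℕ) < n + 1 := by norm_num; omega
    calc 2 ^ 70 = (2 ^ 7) ^ 10 := by norm_num
      _ < (n + 1) ^ 10 := Nat.pow_lt_pow_left h1 (by norm_num)
  have hN1 : 1 < N := lt_trans (by norm_num) hN128
  obtain ⟨β, hβ1, hβ2⟩ : ∃ β, 2 ^ β < N ∧ N ≤ 2 ^ (β + 1) := by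
    refine ⟨Nat.clog 2 N - 1, Nat.pow_pred_clog_lt_self (by norm_num) hN1, ?_⟩
    have h2 : 0 < Nat.clog 2 N := Nat.clog_pos (by norm_num) hN1
    rw [Nat.sub_add_cancel h2]
    exact Nat.le_pow_clog (by norm_num) N
  have hβ70 : 70 ≤ β := by
    by_contra h
    have h3 : N ≤ 2 ^ 70 := hβ2.trans (Nat.pow_le_pow_right (by norm_num) (by omega))
    omega
  by_cases h150 : β < 150
  · left
    exact ⟨β, hβ70, h150, hβ1, hβ2⟩
  · right
    have h4 : β / 150 ≠ 0 := by
      have : 0 < β / 150 := Nat.div_pos (by omega) (by norm_num)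
      omega
    set o := Nat.log 2 (β / 150) with ho
    have h5 : 2 ^ o ≤ β / 150 := Nat.pow_log_le_self 2 h4
    have h6 : β / 150 < 2 ^ (o + 1) := Nat.lt_pow_succ_log_self (by norm_num) _
    have h7 : 2 ^ o * 150 ≤ β := (Nat.le_div_iff_mul_le (by norm_num)).mp h5
    have h8 : β < 2 ^ (o + 1) * 150 := (Nat.div_lt_iff_lt_mul (by norm_num)).mp h6
    have hp : 0 < 2 ^ o := Nat.pos_of_ne_zero (by positivity)
    refine ⟨o, β / 2 ^ o, ?_, ?_, ?_, ?_⟩
    · rw [Nat.le_div_iff_mul_le hp]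
      linarith
    · rw [Nat.div_lt_iff_lt_mul hp]
      rw [pow_succ] at h8
      linarith
    · exact lt_of_le_of_lt (Nat.pow_le_pow_right (by norm_num) (Nat.div_mul_le_self β _)) hβ1
    · refine hβ2.trans (Nat.pow_le_pow_right (by norm_num) ?_)
      have h9 : β < (β / 2 ^ o + 1) * 2 ^ o := by
        have := Nat.lt_div_mul_add hp (a := β)
        rw [add_mul, one_mul]
        exact this
      omega

end Pool.Agent.SX
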